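import Mathlib

set_option autoImplicit false

open Polynomial

namespace Pool.Agent.D0H98.OD

open Finset

/-- the members of `A` in decreasing order -/
noncomputable def dg' (A : Finset ℕ) (i : Fin A.card) : ℕ := A.orderEmbOfFin rfl (Fin.rev i)

theorem dg'_mem (A : Finset ℕ) (i : Fin A.card) : dg' A i ∈ A := Finset.orderEmbOfFin_mem _ _ _

theorem dg'_inj (A : Finset ℕ) : Function.Injective (dg' A) := by
  intro i j h
  exact Fin.rev_injective ((A.orderEmbOfFin rfl).injective h)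

theorem dg'_surj (A : Finset ℕ) {n : ℕ} (hn : n ∈ A) : ∃ i, dg' A i = n := by
  have h : n ∈ Set.range (A.orderEmbOfFin rfl) := by
    rw [Finset.range_orderEmbOfFin]
    exact hn
  obtain ⟨i, hi⟩ := h
  exact ⟨Fin.rev i, by unfold dg'; rw [Fin.rev_rev]; exact hi⟩

theorem prod_dg' {M : Type*} [CommMonoid M] (A : Finset ℕ) (f : ℕ → M) :
    ∏ i, f (dg' A i) = ∏ n ∈ A, f n := by
  refine Finset.prod_bij (fun i _ => dg' A i) (fun i _ => dg'_mem A i) (fun i _ j _ h => dg'_inj A h)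
    (fun n hn => ?_) (fun i _ => rfl)
  obtain ⟨i, hi⟩ := dg'_surj A hn
  exact ⟨i, Finset.mem_univ i, hi⟩

section
variable {k : Type} [Field k] {Pr : ℕ → Finset k[X]}
  (hPr : ∀ n P, P ∈ Pr n ↔ P.Monic ∧ Irreducible P ∧ P.natDegree = n)
include hPr

theorem eq_of_dvd {m n : ℕ} {P Q : k[X]} (hP : P ∈ Pr m) (hQ : Q ∈ Pr n) (h : P ∣ Q) : P = Q := by
  rw [hPr] at hP hQ
  exact Polynomial.eq_of_monic_of_associated hP.1 hQ.1
    ((hP.2.1.dvd_irreducible_iff_associated hQ.2.1).1 h)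

theorem key {A B : Finset ℕ} {d : Fin A.card → k[X]} {e : Fin B.card → k[X]}
    (hd : ∀ i, d i ∈ Pr (dg' A i)) (he : ∀ i, e i ∈ Pr (dg' B i)) (h : ∏ i, d i = ∏ i, e i) (i : Fin A.card) :
    ∃ j, d i = e j := by
  have h1 : d i ∣ ∏ j, e j := by
    rw [← h]
    exact Finset.dvd_prod_of_mem d (Finset.mem_univ i)
  have h2 : Prime (d i) := ((hPr _ _).1 (hd i)).2.1.prime
  obtain ⟨j, -, hj⟩ := (h2.dvd_finsetProd_iff e).1 h1
  exact ⟨j, eq_of_dvd hPr (hd i) (he j) hj⟩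

theorem deg_of {n : ℕ} {P : k[X]} (hP : P ∈ Pr n) : P.natDegree = n := ((hPr _ _).1 hP).2.2

theorem sub_of {A B : Finset ℕ} {d : Fin A.card → k[X]} {e : Fin B.card → k[X]}
    (hd : ∀ i, d i ∈ Pr (dg' A i)) (he : ∀ i, e i ∈ Pr (dg' B i)) (h : ∏ i, d i = ∏ i, e i) : A ⊆ B := by
  intro n hn
  obtain ⟨i, rfl⟩ := dg'_surj A hn
  obtain ⟨j, hj⟩ := key hPr hd he h i
  rw [← deg_of hPr (hd i), hj, deg_of hPr (he j)]
  exact dg'_mem B j

theorem inj_of {A : Finset ℕ} {d e : Fin A.card → k[X]}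
    (hd : ∀ i, d i ∈ Pr (dg' A i)) (he : ∀ i, e i ∈ Pr (dg' A i)) (h : ∏ i, d i = ∏ i, e i) : d = e := by
  funext i
  obtain ⟨j, hj⟩ := key hPr hd he h i
  have h1 : dg' A i = dg' A j := by rw [← deg_of hPr (hd i), hj, deg_of hPr (he j)]
  rw [hj, dg'_inj A h1]

open Classical in
theorem core (𝒜 : Finset (Finset ℕ)) (_ : ∀ A ∈ 𝒜, ∀ n ∈ A, 1 ≤ n) : ∃ S : Finset k[X],
    (∀ D ∈ S, D.Monic ∧ Squarefree D ∧ ∃ A ∈ 𝒜, D.natDegree = ∑ n ∈ A, n) ∧
    S.card = ∑ A ∈ 𝒜, ∏ n ∈ A, (Pr n).card ∧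
    ∀ R : k[X] → Prop, (S.filter R).card = ∑ A ∈ 𝒜,
      ((Fintype.piFinset fun i : Fin A.card => Pr (dg' A i)).filter fun d => R (∏ i, d i)).card := by
  set T : ∀ A : Finset ℕ, Finset (Fin A.card → k[X]) := fun A => Fintype.piFinset fun i => Pr (dg' A i) with hT
  have hmem : ∀ (A : Finset ℕ) (d : Fin A.card → k[X]), d ∈ T A ↔ ∀ i, d i ∈ Pr (dg' A i) := fun A d => by
    rw [hT]; exact Fintype.mem_piFinset
  set S : Finset k[X] := 𝒜.biUnion fun A => (T A).image fun d => ∏ i, d i with hS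
  have hcard : ∀ R : k[X] → Prop, (S.filter R).card = ∑ A ∈ 𝒜, ((T A).filter fun d => R (∏ i, d i)).card := by
    intro R
    have h1 : S.filter R = 𝒜.biUnion fun A => ((T A).filter fun d => R (∏ i, d i)).image fun d => ∏ i, d i := by
      ext P
      simp only [hS, Finset.mem_filter, Finset.mem_biUnion, Finset.mem_image]
      constructor
      · rintro ⟨⟨A, hA, d, hd, rfl⟩, hR⟩
        exact ⟨A, hA, d, ⟨hd, hR⟩, rfl⟩
      · rintro ⟨A, hA, d, ⟨hd, hR⟩, rfl⟩
        exact ⟨⟨A, hA, d, hd, rfl⟩, hR⟩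
    rw [h1, Finset.card_biUnion]
    · refine Finset.sum_congr rfl fun A _ => ?_
      refine Finset.card_image_of_injOn ?_
      intro d hd e he h
      simp only [Finset.coe_filter, Set.mem_ofPred_eq] at hd he
      exact inj_of hPr ((hmem A d).1 hd.1) ((hmem A e).1 he.1) h
    · intro A hA B hB hAB
      show Disjoint _ _
      rw [Finset.disjoint_left]
      intro P hP hP'
      rw [Finset.mem_image] at hP hP'
      obtain ⟨d, hd, rfl⟩ := hP
      obtain ⟨e, he, h⟩ := hP'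
      rw [Finset.mem_filter] at hd he
      have hd' := (hmem A d).1 hd.1
      have he' := (hmem B e).1 he.1
      exact hAB (Finset.Subset.antisymm (sub_of hPr hd' he' h.symm) (sub_of hPr he' hd' h))
  refine ⟨S, ?_, ?_, hcard⟩
  · intro D hD
    rw [hS, Finset.mem_biUnion] at hD
    obtain ⟨A, hA, hD⟩ := hD
    rw [Finset.mem_image] at hD
    obtain ⟨d, hd, rfl⟩ := hD
    have hd' := (hmem A d).1 hd
    have hm : ∀ i, (d i).Monic := fun i => ((hPr _ _).1 (hd' i)).1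
    refine ⟨Polynomial.monic_prod_of_monic _ _ fun i _ => hm i, ?_, A, hA, ?_⟩
    · refine Finset.squarefree_prod_of_pairwise_isCoprime ?_ fun i _ => ((hPr _ _).1 (hd' i)).2.1.squarefree
      intro i _ j _ hij
      have h1 : ¬ d i ∣ d j := by
        intro h
        have h2 := eq_of_dvd hPr (hd' i) (hd' j) h
        apply hij
        apply dg'_inj A
        rw [← deg_of hPr (hd' i), h2, deg_of hPr (hd' j)]
      exact ((((hPr _ _).1 (hd' i)).2.1.coprime_iff_not_dvd).2 h1).isRelPrime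
    · rw [Polynomial.natDegree_prod_of_monic _ _ fun i _ => hm i]
      have h1 : ∑ i, (d i).natDegree = ∑ i, dg' A i := Finset.sum_congr rfl fun i _ => deg_of hPr (hd' i)
      rw [h1]
      refine Finset.sum_bij (fun i _ => dg' A i) (fun i _ => dg'_mem A i) (fun i _ j _ h => dg'_inj A h)
        (fun n hn => ?_) (fun i _ => rfl)
      obtain ⟨i, hi⟩ := dg'_surj A hn
      exact ⟨i, Finset.mem_univ i, hi⟩
  · have h1 := hcard fun _ => True
    simp only [Finset.filter_true] at h1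
    rw [h1]
    refine Finset.sum_congr rfl fun A _ => ?_
    rw [hT]
    show (Fintype.piFinset fun i => Pr (dg' A i)).card = _
    rw [Fintype.card_piFinset]
    exact prod_dg' A fun n => (Pr n).card

end

end Pool.Agent.D0H98.OD
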