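import Pool.Agent.D0H99.OD.Stm5

/-! `EQ2` of `Pool.Agent.D0H99.OD.Stm5`. -/

set_option autoImplicit false

namespace Pool.Agent.D0H98.OD

open Pool.Agent.D0H99.OD
open Pool.Agent.D0H99.RM (V sy)
open Pool.Agent.Y164.SZ
open Pool.Agent.Y164.PS (Pr)
open Polynomial

theorem sy_comm2 {r : ℕ} (B : Bm r) (i j : Fin r) : sy B i j = sy B j i := by
  unfold sy
  rcases lt_trichotomy (i : ℕ) (j : ℕ) with h | h | h
  · rw [dif_neg (by omega), dif_pos h, dif_pos h]
  · rw [dif_neg (by omega), dif_neg (by omega), dif_neg (by omega), dif_neg (by omega)]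
  · rw [dif_pos h, dif_neg (by omega), dif_pos h]

section
variable {k : Type} [Field k] [Fintype k] [DecidableEq k]

open Classical in
theorem mem_PtM2 {κ : Type} {P : κ → k[X]} {r : ℕ} {n : Fin r → ℕ}
    {A : Fin r → Fin r → ZMod 2} {p : Fin r → κ → ZMod 2} {d : Fin r → k[X]} :
    d ∈ PtM P n A p ↔ d ∈ (Fintype.piFinset fun i : Fin r => Pr k (n i)) ∧
      (∀ i s, L 2 (P s) (d i) = p i s) ∧ ∀ i j, i ≠ j → L 2 (d j) (d i) = A i j := by
  unfold PtM
  exact Finset.mem_filter

open Classical in
theorem mem_PtE2 {κ : Type} {P : κ → k[X]} {s r : ℕ} {e : Fin s → k[X]} {n : Fin r → ℕ}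
    {B : Bm (s + r)} {p : Fin (s + r) → κ → ZMod 2} {d : Fin r → k[X]} :
    d ∈ PtE P e n B p ↔ d ∈ (Fintype.piFinset fun i : Fin r => Pr k (n i)) ∧
      (∀ x a, L 2 (P a) (Fin.append e d x) = p x a) ∧
      ∀ x y, x ≠ y → L 2 (Fin.append e d y) (Fin.append e d x) = sy B x y := by
  unfold PtE
  exact Finset.mem_filter

end

theorem t_EQ2 : S_EQM → S_EQ2 := by
  intro hE k _ _ _ S hk κ _ N P hN1 hPm hPi hPinj hPd s r e hem hei heinj hed heP n hn hnN hn4 B p
    hsm hsp
  have h := hE k S hk (κ ⊕ Fin s) N (Sum.elim P e) hN1 ?_ ?_ ?_ ?_ r n hn hnN hn4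
    (fun i j => sy B (Fin.natAdd s i) (Fin.natAdd s j))
    (fun i => Sum.elim (p (Fin.natAdd s i)) (fun x => sy B (Fin.natAdd s i) (Fin.castAdd r x)))
    (fun i j => sy_comm2 B _ _)
  · rw [Fintype.card_sum, Fintype.card_fin] at h
    refine h.trans ?_
    have h2 : (PtM (Sum.elim P e) n (fun i j => sy B (Fin.natAdd s i) (Fin.natAdd s j))
        (fun i => Sum.elim (p (Fin.natAdd s i))
          (fun x => sy B (Fin.natAdd s i) (Fin.castAdd r x)))) ⊆ PtE P e n B p := by
      intro d hd
      rw [mem_PtM2] at hd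
      rw [mem_PtE2]
      obtain ⟨h3, h4, h5⟩ := hd
      refine ⟨h3, fun x a => ?_, fun x y hxy => ?_⟩
      · refine Fin.addCases (fun x => ?_) (fun i => ?_) x
        · rw [Fin.append_left]
          exact hsp x a
        · rw [Fin.append_right]
          exact h4 i (Sum.inl a)
      · revert hxy
        refine Fin.addCases (fun x => ?_) (fun i => ?_) x
        · refine Fin.addCases (fun y => ?_) (fun j => ?_) y
          · intro hxy
            rw [Fin.append_left, Fin.append_left]
            exact hsm x y fun h6 => hxy (by rw [h6])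
          · intro _
            rw [Fin.append_left, Fin.append_right, S.toSYM0.L_comm, sy_comm2]
            exact h4 j (Sum.inr x)
        · refine Fin.addCases (fun y => ?_) (fun j => ?_) y
          · intro _
            rw [Fin.append_left, Fin.append_right]
            exact h4 i (Sum.inr y)
          · intro hxy
            rw [Fin.append_right, Fin.append_right]
            exact h5 i j fun h6 => hxy (by rw [h6])
    exact_mod_cast Finset.card_le_card h2
  · rintro (a | x)
    · exact hPm a
    · exact hem x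
  · rintro (a | x)
    · exact hPi a
    · exact hei x
  · rintro (a | x) (b | y) hab
    · exact congrArg Sum.inl (hPinj hab)
    · exact absurd hab.symm (heP y a)
    · exact absurd hab (heP x b)
    · exact congrArg Sum.inr (heinj hab)
  · rintro (a | x)
    · exact hPd a
    · exact hed x

end Pool.Agent.D0H98.OD
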