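import Pool.Agent.D0H99.OD.Stm
import Pool.Agent.D0H98.OD.Core

/-! `FAM` of `Pool.Agent.D0H99.OD.Stm`. -/

set_option autoImplicit false

namespace Pool.Agent.D0H98.OD

theorem t_FAM : Pool.Agent.D0H99.OD.S_FAM := by
  intro k _ _ _ 𝒜 h𝒜
  exact core (k := k) (Pr := fun n => Pool.Agent.Y164.PS.Pr k n) (fun n P => Pool.Agent.Y164.PS.mem_Pr) 𝒜 h𝒜

end Pool.Agent.D0H98.OD
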