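import Pool.Agent.D0H99.OD.Stm5

/-! `GN2` of `Pool.Agent.D0H99.OD.Stm5`. -/

set_option autoImplicit false

namespace Pool.Agent.D0H98.OD

open Pool.Agent.D0H99.OD

theorem t_GN2 : S_GN2 := by
  classical
  intro C _ k r s a c hs hO
  obtain ⟨hC, hP⟩ := hO
  -- equal values of `a` have equal values of `c`
  have key : ∀ x x' : Fin r, s ≤ (x' : ℕ) → a x' = a x → c x' = c x := by
    intro x x' hx' hax
    funext i0 j0 t0
    obtain ⟨z, hz, haz⟩ := hs (fun i j t => a x i j t +
      (if i = i0 then (if j = j0 then (if t = t0 then 1 else 0) else 0) else 0))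
    have h1 := hP z x' hz
    have h2 := hP z x hz
    unfold Pair at h1 h2
    have h3 : ∑ i, ∑ j, ∑ t, (a z i j t - a x i j t) * (c x' i j t - c x i j t) = 0 := by
      have h4 : ∑ i, ∑ j, ∑ t, (a z i j t - a x i j t) * (c x' i j t - c x i j t) =
          (∑ i, ∑ j, ∑ t, (a z i j t - a x i j t) * (c z i j t - c x i j t)) -
          ∑ i, ∑ j, ∑ t, (a z i j t - a x' i j t) * (c z i j t - c x' i j t) := by
        rw [← Finset.sum_sub_distrib]
        refine Finset.sum_congr rfl fun i _ => ?_
        rw [← Finset.sum_sub_distrib]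
        refine Finset.sum_congr rfl fun j _ => ?_
        rw [← Finset.sum_sub_distrib]
        refine Finset.sum_congr rfl fun t _ => ?_
        rw [hax]
        ring
      rw [h4, h1, h2, sub_zero]
    have h5 : ∀ i j t, a z i j t - a x i j t =
        (if i = i0 then (if j = j0 then (if t = t0 then 1 else 0) else 0) else 0) := by
      intro i j t
      rw [haz]
      ring
    have h6 : ∑ i, ∑ j, ∑ t, (a z i j t - a x i j t) * (c x' i j t - c x i j t) =
        c x' i0 j0 t0 - c x i0 j0 t0 := by
      rw [Finset.sum_eq_single i0, Finset.sum_eq_single j0, Finset.sum_eq_single t0]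
      · rw [h5, if_pos rfl, if_pos rfl, if_pos rfl, one_mul]
      · intro t _ ht
        rw [h5, if_pos rfl, if_pos rfl, if_neg ht, zero_mul]
      · intro h
        exact absurd (Finset.mem_univ _) h
      · intro j _ hj
        refine Finset.sum_eq_zero fun t _ => ?_
        rw [h5, if_pos rfl, if_neg hj, zero_mul]
      · intro h
        exact absurd (Finset.mem_univ _) h
      · intro i _ hi
        refine Finset.sum_eq_zero fun j _ => Finset.sum_eq_zero fun t _ => ?_
        rw [h5, if_neg hi, zero_mul]
      · intro h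
        exact absurd (Finset.mem_univ _) h
    rw [h6] at h3
    exact sub_eq_zero.1 h3
  refine ⟨fun x => ?_, fun x y => ?_⟩
  · obtain ⟨x', hx', hax⟩ := hs (a x)
    rw [← hax, ← key x x' hx' hax]
    exact hC x' hx'
  · obtain ⟨x', hx', hax⟩ := hs (a x)
    rw [← hax, ← key x x' hx' hax]
    exact hP x' y hx'

end Pool.Agent.D0H98.OD
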